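import Pool.Agent.H11.LB.Final

/-!
MP_fc7159_al: a hyperbolic free-by-cyclic group `G` with irreducible monodromy is LERF if and only if
`Σ¹(H)` is symmetric for every subgroup `H` of finite index; indeed `G` is never LERF, and `Σ¹(H)`
is not symmetric for some `H`.
-/

set_option autoImplicit false

namespace Pool.Agent.Results.MP_fc7159_al.NotLERF

open LB

/-- Given the published theorems listed in `Published`, let `G` be a hyperbolic free-by-cyclic group
with irreducible monodromy. Then `G` is LERF if and only if `Σ¹(H)` is symmetric for every subgroup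
`H` of finite index. Both sides are decided: `G` is not LERF, and some subgroup of finite index has a
non-symmetric invariant. -/
theorem result
    (pub : ∀ (G : Type) [Group G], IsHyperbolic G → HasIrreducibleMonodromy G →
      Nonempty (Published G))
    (G : Type) [Group G] (hyp : IsHyperbolic G) (irr : HasIrreducibleMonodromy G) :
    (IsLERF G ↔ ∀ H : Subgroup G, H.FiniteIndex → SymmetricSigma H) ∧
      ¬ IsLERF G ∧ ∃ H : Subgroup G, H.FiniteIndex ∧ ¬ SymmetricSigma H := by
  obtain ⟨P⟩ := pub G hyp irr
  obtain ⟨h1, H, hH, h2⟩ := P.conclusion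
  exact ⟨⟨fun h => absurd h h1, fun h => absurd (h H hH) h2⟩, h1, H, hH, h2⟩

end Pool.Agent.Results.MP_fc7159_al.NotLERF
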